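import Pool.Agent.V11120.Thr.Matrix

/-!
# The matrix of crossings of the thrackle drawing has few corner windows
-/

set_option autoImplicit false
set_option linter.unusedVariables false

namespace Pool.Agent.V11120.Thr

open Finset

variable {V : Type} [LinearOrder V]

/-- the crossing matrix: rows are edges sorted by right ends, columns are edges sorted by left
ends and then by right ends -/
def Mat (m : ℕ) (lP rP lS rS : ℕ → V) (i j : ℕ) : Prop :=
  i < m ∧ j < m ∧ rP i < rS j ∧ lS j ≠ lP i ∧ lS j ≠ rP i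

/-- the four ends of the edges of two consecutive rows -/
def ends4 (lP rP : ℕ → V) (a : ℕ) : Fin 4 → V
  | 0 => lP a
  | 1 => rP a
  | 2 => lP (a + 1)
  | 3 => rP (a + 1)

/-- four types of windows -/
def typ (m : ℕ) (lP rP lS rS : ℕ → V) (v : V) (a b : ℕ) : Fin 4 → Prop
  | 0 => lS b = v ∧ lS (b + 1) ≠ v
  | 1 => lS b ≠ v ∧ lS (b + 1) = v
  | 2 => lS b = v ∧ lS (b + 1) = v ∧ rS b ≤ rP a ∧ rP a < rS (b + 1)
  | 3 => lS b = v ∧ lS (b + 1) = v ∧ rS b ≤ rP (a + 1) ∧ rP (a + 1) < rS (b + 1)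

theorem corner_cases {m : ℕ} {lP rP lS rS : ℕ → V}
    (hP : ∀ i, i + 1 < m → rP i ≤ rP (i + 1))
    (hS2 : ∀ j, j + 1 < m → lS j = lS (j + 1) → rS j ≤ rS (j + 1))
    (hPS : ∀ i j, i + 1 < m → j < m → rP i < rS j → rP (i + 1) ≤ rS j)
    {a b : ℕ} (ha : a + 1 < m) (hb : b + 1 < m) (hc : Corner (Mat m lP rP lS rS) a b) :
    (rP a ≠ rP (a + 1) ∧ rS b = rP (a + 1)) ∨ (rP a ≠ rP (a + 1) ∧ rS (b + 1) = rP (a + 1)) ∨
      ∃ k t : Fin 4, typ m lP rP lS rS (ends4 lP rP a k) a b t := by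
  have ha0 : a < m := by omega
  have hb0 : b < m := by omega
  obtain ⟨h1, h2⟩ := hc
  -- the rows differ in a column `g`
  have hrow : ∃ g, (g = b ∨ g = b + 1) ∧ ¬ (Mat m lP rP lS rS a g ↔ Mat m lP rP lS rS (a + 1) g) := by
    by_contra hcon
    push Not at hcon
    exact h1 ⟨hcon b (Or.inl rfl), hcon (b + 1) (Or.inr rfl)⟩
  have hcol : ∃ h, (h = a ∨ h = a + 1) ∧ ¬ (Mat m lP rP lS rS h b ↔ Mat m lP rP lS rS h (b + 1)) := by
    by_contra hcon
    push Not at hcon
    exact h2 ⟨hcon a (Or.inl rfl), hcon (a + 1) (Or.inr rfl)⟩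
  obtain ⟨g, hg, hgA⟩ := hrow
  obtain ⟨h, hh, hhA⟩ := hcol
  have hgm : g < m := by omega
  have hhm : h < m := by omega
  have hPa := hP a ha
  by_cases hset1 : rP a ≠ rP (a + 1) ∧ rS g = rP (a + 1)
  · rcases hg with rfl | rfl
    · exact Or.inl hset1
    · exact Or.inr (Or.inl hset1)
  refine Or.inr (Or.inr ?_)
  have hv : ∃ k : Fin 4, lS g = ends4 lP rP a k := by
    by_contra hcon
    push Not at hcon
    have e0 := hcon 0
    have e1 := hcon 1
    have e2 := hcon 2
    have e3 := hcon 3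
    simp only [ends4] at e0 e1 e2 e3
    apply hgA
    unfold Mat
    constructor
    · rintro ⟨_, _, h3, _, _⟩
      refine ⟨ha, hgm, ?_, e2, e3⟩
      have h4 := hPS a g ha hgm h3
      rcases h4.lt_or_eq with h5 | h5
      · exact h5
      · exfalso
        apply hset1
        refine ⟨?_, h5.symm⟩
        intro h6
        rw [← h6] at h5
        exact absurd h5 h3.ne
    · rintro ⟨_, _, h3, _, _⟩
      exact ⟨ha0, hgm, lt_of_le_of_lt hPa h3, e0, e1⟩
  obtain ⟨k, hk⟩ := hv
  refine ⟨k, ?_⟩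
  rw [← hk]
  by_cases hll : lS b = lS (b + 1)
  · have hgb : lS g = lS b := by
      rcases hg with rfl | rfl
      · rfl
      · exact hll.symm
    have hgb' : lS g = lS (b + 1) := hgb.trans hll
    have hrr := hS2 b hb hll
    have key : rS b ≤ rP h ∧ rP h < rS (b + 1) := by
      by_contra hcon
      apply hhA
      unfold Mat
      rw [← hll]
      constructor
      · rintro ⟨q1, q2, q3, q4, q5⟩
        exact ⟨q1, hb, lt_of_lt_of_le q3 hrr, q4, q5⟩
      · rintro ⟨q1, q2, q3, q4, q5⟩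
        refine ⟨q1, hb0, ?_, q4, q5⟩
        by_contra q6
        exact hcon ⟨not_lt.1 q6, q3⟩
    rcases hh with rfl | rfl
    · exact ⟨2, hgb.symm, hgb'.symm, key⟩
    · exact ⟨3, hgb.symm, hgb'.symm, key⟩
  · rcases hg with rfl | rfl
    · exact ⟨0, rfl, fun h => hll h.symm⟩
    · exact ⟨1, hll, rfl⟩

theorem typ_unique {m : ℕ} {lP rP lS rS : ℕ → V}
    (hS1 : ∀ j j', j ≤ j' → j' < m → lS j ≤ lS j')
    (hS2 : ∀ j j', j ≤ j' → j' < m → lS j = lS j' → rS j ≤ rS j')
    (v : V) (a : ℕ) (t : Fin 4) {b b' : ℕ} (hb : b + 1 < m) (hb' : b' + 1 < m)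
    (h : typ m lP rP lS rS v a b t) (h' : typ m lP rP lS rS v a b' t) : ¬ b < b' := by
  intro hlt
  have s1 := hS1 b b' hlt.le (by omega)
  have s2 := hS1 (b + 1) b' hlt (by omega)
  have s3 := hS1 b (b + 1) (by omega) hb
  have s4 := hS1 (b + 1) (b' + 1) (by omega) hb'
  have s5 := hS1 b' (b' + 1) (by omega) hb'
  fin_cases t
  · obtain ⟨h1, h2⟩ := h
    obtain ⟨h3, h4⟩ := h'
    rw [h1] at s3
    rw [h3] at s2
    exact h2 (le_antisymm s2 s3)
  · obtain ⟨h1, h2⟩ := h
    obtain ⟨h3, h4⟩ := h'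
    rw [h2] at s2
    rw [h4] at s5
    exact h3 (le_antisymm s5 s2)
  · obtain ⟨h1, h2, h3, h4⟩ := h
    obtain ⟨h1', h2', h3', h4'⟩ := h'
    have := hS2 (b + 1) b' hlt (by omega) (h2.trans h1'.symm)
    exact absurd (lt_of_lt_of_le h4 (this.trans h3')) (lt_irrefl _)
  · obtain ⟨h1, h2, h3, h4⟩ := h
    obtain ⟨h1', h2', h3', h4'⟩ := h'
    have := hS2 (b + 1) b' hlt (by omega) (h2.trans h1'.symm)
    exact absurd (lt_of_lt_of_le h4 (this.trans h3')) (lt_irrefl _)

open Classical in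
theorem card_corners (m : ℕ) (lP rP lS rS : ℕ → V)
    (hP : ∀ i i', i ≤ i' → i' < m → rP i ≤ rP i')
    (hS1 : ∀ j j', j ≤ j' → j' < m → lS j ≤ lS j')
    (hS2 : ∀ j j', j ≤ j' → j' < m → lS j = lS j' → rS j ≤ rS j')
    (hPS : ∀ i j, i + 1 < m → j < m → rP i < rS j → rP (i + 1) ≤ rS j) :
    #((range m ×ˢ range m).filter fun p => p.1 + 1 < m ∧ p.2 + 1 < m ∧
      Corner (Mat m lP rP lS rS) p.1 p.2) ≤ 18 * m := by
  set B := (range m ×ˢ range m).filter fun p : ℕ × ℕ => p.1 + 1 < m ∧ p.2 + 1 < m with hB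
  set T1 := B.filter fun p : ℕ × ℕ => rP p.1 ≠ rP (p.1 + 1) ∧ rS p.2 = rP (p.1 + 1) with hT1
  set T2 := B.filter fun p : ℕ × ℕ => rP p.1 ≠ rP (p.1 + 1) ∧ rS (p.2 + 1) = rP (p.1 + 1) with hT2
  set T3 : Fin 4 × Fin 4 → Finset (ℕ × ℕ) := fun kt => B.filter fun p : ℕ × ℕ =>
    typ m lP rP lS rS (ends4 lP rP p.1 kt.1) p.1 p.2 kt.2 with hT3
  have hcover : ((range m ×ˢ range m).filter fun p => p.1 + 1 < m ∧ p.2 + 1 < m ∧
      Corner (Mat m lP rP lS rS) p.1 p.2) ⊆ T1 ∪ T2 ∪ univ.biUnion T3 := by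
    intro p hp
    obtain ⟨h1, h2, h3, h4⟩ := mem_filter.1 hp
    have hpB : p ∈ B := mem_filter.2 ⟨h1, h2, h3⟩
    rcases corner_cases (fun i hi => hP i (i + 1) (by omega) hi)
      (fun j hj => hS2 j (j + 1) (by omega) hj) hPS h2 h3 h4 with h | h | ⟨k, t, h⟩
    · exact mem_union_left _ (mem_union_left _ (mem_filter.2 ⟨hpB, h⟩))
    · exact mem_union_left _ (mem_union_right _ (mem_filter.2 ⟨hpB, h⟩))
    · exact mem_union_right _ (mem_biUnion.2 ⟨(k, t), mem_univ _, mem_filter.2 ⟨hpB, h⟩⟩)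
  have hBr : ∀ p ∈ B, p.1 + 1 < m ∧ p.2 + 1 < m := fun p hp => (mem_filter.1 hp).2
  have auxr : ∀ a a', a < a' → a' + 1 < m → rP a' ≠ rP (a' + 1) → rP (a + 1) ≠ rP (a' + 1) := by
    intro a a' h1 h2 h3 h4
    have s1 := hP (a + 1) a' h1 (by omega)
    have s2 := hP a' (a' + 1) (by omega) h2
    rw [h4] at s1
    exact h3 (le_antisymm s2 s1)
  have c1 : #T1 ≤ m := by
    calc #T1 ≤ #(range m) := by
          refine card_le_card_of_injOn Prod.snd ?_ ?_
          · intro p hp
            have := (hBr p (mem_filter.1 hp).1).2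
            exact mem_range.2 (by omega)
          · rintro ⟨i, j⟩ hp ⟨i', j'⟩ hq hpq
            simp only at hpq
            subst hpq
            obtain ⟨b1, h1, h2⟩ := mem_filter.1 (mem_coe.1 hp)
            obtain ⟨b2, h3, h4⟩ := mem_filter.1 (mem_coe.1 hq)
            have q1 := (hBr _ b1).1
            have q2 := (hBr _ b2).1
            simp only at h1 h2 h3 h4 q1 q2
            rcases lt_trichotomy i i' with h | h | h
            · exact absurd (h2.symm.trans h4) (auxr i i' h q2 h3)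
            · rw [h]
            · exact absurd (h4.symm.trans h2) (auxr i' i h q1 h1)
      _ = m := card_range m
  have c2 : #T2 ≤ m := by
    calc #T2 ≤ #(range m) := by
          refine card_le_card_of_injOn Prod.snd ?_ ?_
          · intro p hp
            have := (hBr p (mem_filter.1 hp).1).2
            exact mem_range.2 (by omega)
          · rintro ⟨i, j⟩ hp ⟨i', j'⟩ hq hpq
            simp only at hpq
            subst hpq
            obtain ⟨b1, h1, h2⟩ := mem_filter.1 (mem_coe.1 hp)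
            obtain ⟨b2, h3, h4⟩ := mem_filter.1 (mem_coe.1 hq)
            have q1 := (hBr _ b1).1
            have q2 := (hBr _ b2).1
            simp only at h1 h2 h3 h4 q1 q2
            rcases lt_trichotomy i i' with h | h | h
            · exact absurd (h2.symm.trans h4) (auxr i i' h q2 h3)
            · rw [h]
            · exact absurd (h4.symm.trans h2) (auxr i' i h q1 h1)
      _ = m := card_range m
  have c3 : ∀ kt, #(T3 kt) ≤ m := by
    intro kt
    calc #(T3 kt) ≤ #(range m) := by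
          refine card_le_card_of_injOn Prod.fst ?_ ?_
          · intro p hp
            have := (hBr p (mem_filter.1 hp).1).1
            exact mem_range.2 (by omega)
          · rintro ⟨i, j⟩ hp ⟨i', j'⟩ hq hpq
            simp only at hpq
            subst hpq
            obtain ⟨b1, h1⟩ := mem_filter.1 (mem_coe.1 hp)
            obtain ⟨b2, h2⟩ := mem_filter.1 (mem_coe.1 hq)
            have q1 := (hBr _ b1).2
            have q2 := (hBr _ b2).2
            simp only at h1 h2 q1 q2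
            rcases lt_trichotomy j j' with h | h | h
            · exact absurd h (typ_unique hS1 hS2 _ _ _ q1 q2 h1 h2)
            · rw [h]
            · exact absurd h (typ_unique hS1 hS2 _ _ _ q2 q1 h2 h1)
      _ = m := card_range m
  have c4 : #(univ.biUnion T3) ≤ 16 * m := by
    calc #(univ.biUnion T3) ≤ ∑ kt : Fin 4 × Fin 4, #(T3 kt) := card_biUnion_le
      _ ≤ ∑ kt : Fin 4 × Fin 4, m := sum_le_sum fun kt _ => c3 kt
      _ = 16 * m := by simp
  have u1 := card_le_card hcover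
  have u2 := card_union_le (T1 ∪ T2) (univ.biUnion T3)
  have u3 := card_union_le T1 T2
  omega

end Pool.Agent.V11120.Thr
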