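import Mathlib

/-!
# Ranks and cyclic permutations of fibres
-/

set_option autoImplicit false
set_option linter.unusedVariables false

namespace Pool.Agent.V11120.Thr

open Equiv

theorem exists_rank {X K : Type} [Fintype X] [LinearOrder K] (key : X → K)
    (hk : Function.Injective key) :
    ∃ o : X ≃ Fin (Fintype.card X), ∀ x y, o x < o y ↔ key x < key y := by
  letI : LinearOrder X := LinearOrder.lift' key hk
  refine ⟨(Fintype.orderIsoFinOfCardEq X rfl).symm.toEquiv, fun x y => ?_⟩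
  exact (Fintype.orderIsoFinOfCardEq X rfl).symm.lt_iff_lt

theorem exists_cyclic (X : Type) [Finite X] : ∃ τ : Perm X, ∀ x y, τ.SameCycle x y := by
  classical
  haveI := Fintype.ofFinite X
  obtain ⟨f, hf, _⟩ := (Finset.univ : Finset X).exists_cycleOn
  refine ⟨f, fun x y => ?_⟩
  exact hf.2 (by simp) (by simp)

theorem exists_fiber_cycle {X Y : Type} [Finite X] (π : X → Y) :
    ∃ τ : Perm X, (∀ x, π (τ x) = π x) ∧ ∀ x y, π x = π y → τ.SameCycle x y := by
  classical
  choose F hF using fun y : Y => exists_cyclic {x // π x = y}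
  refine ⟨(Equiv.sigmaFiberEquiv π).permCongr (Perm.sigmaCongrRight F), ?_, ?_⟩
  · intro x
    simp only [Equiv.permCongr_apply]
    have h : (Equiv.sigmaFiberEquiv π).symm x = ⟨π x, x, rfl⟩ := rfl
    rw [h]
    exact (F (π x) ⟨x, rfl⟩).2
  · intro x y hxy
    obtain ⟨i, hi⟩ := hF (π y) ⟨x, hxy⟩ ⟨y, rfl⟩
    refine ⟨i, ?_⟩
    have h1 : ((Equiv.sigmaFiberEquiv π).permCongr (Perm.sigmaCongrRight F)) ^ i =
        (Equiv.sigmaFiberEquiv π).permCongr (Perm.sigmaCongrRight (F ^ i)) := by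
      have e1 : Perm.sigmaCongrRight (F ^ i) = (Perm.sigmaCongrRight F) ^ i :=
        map_zpow (Perm.sigmaCongrRightHom _) F i
      rw [e1]
      exact (map_zpow (Equiv.permCongrHom (Equiv.sigmaFiberEquiv π)) (Perm.sigmaCongrRight F) i).symm
    rw [h1]
    simp only [Equiv.permCongr_apply]
    have h : (Equiv.sigmaFiberEquiv π).symm x = ⟨π y, x, hxy⟩ := by
      rw [Equiv.symm_apply_eq]
      rfl
    rw [h]
    show ((F ^ i) (π y) ⟨x, hxy⟩ : {x // π x = π y}).1 = y
    rw [Pi.pow_apply, hi]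

end Pool.Agent.V11120.Thr
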