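import Pool.Agent.V11120.Thr.Corners
import Pool.Agent.V11120.Thr.Fiber
import Pool.Agent.TH482.HT.Defs

/-!
# The thrackle drawing
-/

set_option autoImplicit false
set_option linter.unusedVariables false
set_option linter.unusedSectionVars false

namespace Pool.Agent.V11120.Thr

open Equiv

/-- a permutation of `Option X` that runs through `none` and then `X` in the order of `o` -/
theorem exists_next_perm {X : Type} {k : ℕ} (o : X ≃ Fin k) :
    ∃ (idx : Option X → ℕ) (nx : Perm (Option X)), (∀ x, idx x ≤ k) ∧ idx none = 0 ∧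
      (∀ x, idx (some x) = (o x).val + 1) ∧ (∀ x, idx x = k → idx (nx x) = 0) ∧
      (∀ x, idx x ≠ k → idx (nx x) = idx x + 1) := by
  let φ : Option X ≃ Fin (k + 1) := (Equiv.optionCongr o).trans (finSuccEquiv k).symm
  refine ⟨fun x => (φ x).val, (φ.trans (finRotate (k + 1))).trans φ.symm, ?_, ?_, ?_, ?_, ?_⟩
  · intro x; exact Nat.lt_succ_iff.1 (φ x).isLt
  · simp [φ]
  · intro x; simp [φ]
  · intro x hx
    have : φ x = Fin.last k := Fin.ext hx
    simp [Equiv.trans_apply, this]
  · intro x hx
    have h : φ x ≠ Fin.last k := fun h => hx (by show (φ x).val = k; rw [h]; rfl)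
    simp only [Equiv.trans_apply, Equiv.apply_symm_apply]
    exact coe_finRotate_of_ne_last h

section

variable {V : Type} [Fintype V] [LinearOrder V] (G : SimpleGraph V)

/-- the edges -/
def Ed : Type := {p : V × V // p.1 < p.2 ∧ G.Adj p.1 p.2}

variable {G}

/-- left end -/
def Ed.l (e : Ed G) : V := e.1.1
/-- right end -/
def Ed.r (e : Ed G) : V := e.1.2

theorem Ed.ext {e f : Ed G} (h1 : e.l = f.l) (h2 : e.r = f.r) : e = f :=
  Subtype.ext (Prod.ext h1 h2)

theorem Ed.lt (e : Ed G) : e.l < e.r := e.2.1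
theorem Ed.adj (e : Ed G) : G.Adj e.l e.r := e.2.2

instance : Finite (Ed G) := inferInstanceAs (Finite {p : V × V // p.1 < p.2 ∧ G.Adj p.1 p.2})
noncomputable instance : Fintype (Ed G) := Fintype.ofFinite _
noncomputable instance : DecidableEq (Ed G) := Classical.decEq _

/-- independent edges -/
def Ind (e f : Ed G) : Prop := e.l ≠ f.l ∧ e.l ≠ f.r ∧ e.r ≠ f.l ∧ e.r ≠ f.r

theorem Ind.symm {e f : Ed G} (h : Ind e f) : Ind f e :=
  ⟨h.1.symm, h.2.2.1.symm, h.2.1.symm, h.2.2.2.symm⟩

variable (G) in
/-- the edges independent of `e` -/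
def X (e : Ed G) : Type := {f : Ed G // Ind e f}

instance (e : Ed G) : Finite (X G e) := inferInstanceAs (Finite {f : Ed G // Ind e f})
noncomputable instance (e : Ed G) : Fintype (X G e) := Fintype.ofFinite _

open Classical in
/-- the key by which the crossings on `e` are sorted -/
noncomputable def key (e : Ed G) (f : X G e) : Bool ×ₗ (V ×ₗ V) :=
  if f.1.r < e.r then toLex (false, toLex (f.1.r, f.1.l)) else toLex (true, toLex (f.1.l, f.1.r))

theorem key_inj (e : Ed G) : Function.Injective (key e) := by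
  intro f g h
  unfold key at h
  split_ifs at h with h1 h2 h2
  · simp only [EmbeddingLike.apply_eq_iff_eq, Prod.mk.injEq, true_and] at h
    exact Subtype.ext (Ed.ext h.2 h.1)
  · simp at h
  · simp at h
  · simp only [EmbeddingLike.apply_eq_iff_eq, Prod.mk.injEq, true_and] at h
    exact Subtype.ext (Ed.ext h.1 h.2)

/-- the rank of the crossings on `e` -/
noncomputable def o (e : Ed G) : X G e ≃ Fin (Fintype.card (X G e)) :=
  (exists_rank (key e) (key_inj e)).choose

theorem o_lt (e : Ed G) (f g : X G e) : o e f < o e g ↔ key e f < key e g :=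
  (exists_rank (key e) (key_inj e)).choose_spec f g

/-- the number of crossings on `e` -/
noncomputable def k (e : Ed G) : ℕ := Fintype.card (X G e)

/-- the number of crossings on `e` up to `x` -/
noncomputable def idx (e : Ed G) : Option (X G e) → ℕ := (exists_next_perm (o e)).choose

/-- the next crossing -/
noncomputable def nx (e : Ed G) : Perm (Option (X G e)) :=
  (exists_next_perm (o e)).choose_spec.choose

theorem idx_le (e : Ed G) (x) : idx e x ≤ k e :=
  (exists_next_perm (o e)).choose_spec.choose_spec.1 x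
theorem idx_none (e : Ed G) : idx e none = 0 :=
  (exists_next_perm (o e)).choose_spec.choose_spec.2.1
theorem idx_some (e : Ed G) (f : X G e) : idx e (some f) = (o e f).val + 1 :=
  (exists_next_perm (o e)).choose_spec.choose_spec.2.2.1 f
theorem idx_last (e : Ed G) (x) (h : idx e x = k e) : idx e (nx e x) = 0 :=
  (exists_next_perm (o e)).choose_spec.choose_spec.2.2.2.1 x h
theorem idx_next (e : Ed G) (x) (h : idx e x ≠ k e) : idx e (nx e x) = idx e x + 1 :=
  (exists_next_perm (o e)).choose_spec.choose_spec.2.2.2.2 x h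

theorem idx_inj (e : Ed G) : Function.Injective (idx e) := by
  intro x y h
  rcases x with _ | x <;> rcases y with _ | y
  · rfl
  · rw [idx_none, idx_some] at h; omega
  · rw [idx_none, idx_some] at h; omega
  · rw [idx_some, idx_some] at h
    congr 1
    exact (o e).injective (Fin.ext (by omega))

theorem idx_eq_zero (e : Ed G) {x} (h : idx e x = 0) : x = none :=
  idx_inj e (h.trans (idx_none e).symm)

theorem idx_prev_none (e : Ed G) {x} (h : idx e ((nx e).symm x) = k e) : x = none := by
  have := idx_last e _ h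
  rw [Equiv.apply_symm_apply] at this
  exact idx_eq_zero e this

theorem idx_prev (e : Ed G) {x} (h : x ≠ none) : idx e ((nx e).symm x) + 1 = idx e x := by
  by_cases h1 : idx e ((nx e).symm x) = k e
  · exact absurd (idx_prev_none e h1) h
  · have := idx_next e _ h1
    rw [Equiv.apply_symm_apply] at this
    exact this.symm

theorem idx_prev_of_none (e : Ed G) : idx e ((nx e).symm none) = k e := by
  by_contra h
  have := idx_next e _ h
  rw [Equiv.apply_symm_apply, idx_none] at this
  omega

/-- the darts -/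
structure Dt (G : SimpleGraph V) where
  /-- the edge -/
  e : Ed G
  /-- the direction -/
  s : Bool
  /-- the crossing from which the dart starts, if any -/
  x : Option (X G e)

/-- darts as a sum -/
def dtEquiv : (Σ e : Ed G, Bool × Option (X G e)) ≃ Dt G where
  toFun p := ⟨p.1, p.2.1, p.2.2⟩
  invFun d := ⟨d.e, d.s, d.x⟩
  left_inv := fun _ => rfl
  right_inv := fun _ => rfl

noncomputable instance : Fintype (Dt G) := by
  classical
  exact Fintype.ofEquiv _ dtEquiv

/-- reversal of darts -/
noncomputable def rv : Perm (Dt G) where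
  toFun d := match d with
    | ⟨e, true, x⟩ => ⟨e, false, nx e x⟩
    | ⟨e, false, x⟩ => ⟨e, true, (nx e).symm x⟩
  invFun d := match d with
    | ⟨e, true, x⟩ => ⟨e, false, nx e x⟩
    | ⟨e, false, x⟩ => ⟨e, true, (nx e).symm x⟩
  left_inv := by rintro ⟨e, s | s, x⟩ <;> simp
  right_inv := by rintro ⟨e, s | s, x⟩ <;> simp

theorem rv_true (e : Ed G) (x) : rv ⟨e, true, x⟩ = ⟨e, false, nx e x⟩ := rfl
theorem rv_false (e : Ed G) (x) : rv ⟨e, false, x⟩ = ⟨e, true, (nx e).symm x⟩ := rfl

/-- the starting vertex of a directed edge -/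
def st (p : Ed G × Bool) : V := bif p.2 then p.1.l else p.1.r

variable (G) in
/-- the rotation at the vertices -/
noncomputable def τ : Perm (Ed G × Bool) := (exists_fiber_cycle (st (G := G))).choose

theorem st_τ (p : Ed G × Bool) : st (τ G p) = st p :=
  (exists_fiber_cycle (st (G := G))).choose_spec.1 p

theorem τ_cycle (p q : Ed G × Bool) (h : st p = st q) : (τ G).SameCycle p q :=
  (exists_fiber_cycle (st (G := G))).choose_spec.2 p q h

/-- the first piece of a directed edge -/
def nd (p : Ed G × Bool) : Dt G := ⟨p.1, p.2, none⟩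

/-- rotation of darts -/
noncomputable def rt : Perm (Dt G) where
  toFun d := match d with
    | ⟨e, s, none⟩ => nd (τ G (e, s))
    | ⟨e, s, some f⟩ => ⟨f.1, xor s (decide (f.1.r < e.r)), some ⟨e, f.2.symm⟩⟩
  invFun d := match d with
    | ⟨e, s, none⟩ => nd ((τ G).symm (e, s))
    | ⟨e, s, some f⟩ => ⟨f.1, xor s (decide (e.r < f.1.r)), some ⟨e, f.2.symm⟩⟩
  left_inv := by
    rintro ⟨e, s, _ | f⟩
    · show nd ((τ G).symm (τ G (e, s))) = nd (e, s)
      rw [Equiv.symm_apply_apply]
    · rcases s <;> simp [X]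
  right_inv := by
    rintro ⟨e, s, _ | f⟩
    · show nd (τ G ((τ G).symm (e, s))) = nd (e, s)
      rw [Equiv.apply_symm_apply]
    · rcases s <;> simp [X]

theorem rt_none (e : Ed G) (s : Bool) : rt ⟨e, s, none⟩ = nd (τ G (e, s)) := rfl
theorem rt_nd (p : Ed G × Bool) : rt (nd p) = nd (τ G p) := rfl
theorem rt_some (e : Ed G) (s : Bool) (f : X G e) :
    rt ⟨e, s, some f⟩ = ⟨f.1, xor s (decide (f.1.r < e.r)), some ⟨e, f.2.symm⟩⟩ := rfl

theorem rt_rt_some (e : Ed G) (s : Bool) (f : X G e) :
    rt (rt ⟨e, s, some f⟩) = ⟨e, !s, some f⟩ := by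
  rw [rt_some, rt_some]
  have h : xor (xor s (decide (f.1.r < e.r))) (decide (e.r < f.1.r)) = !s := by
    rcases lt_trichotomy e.r f.1.r with h | h | h
    · simp [h, h.not_gt]
    · exact absurd h f.2.2.2.2
    · simp [h, h.not_gt]
  rw [h]
  rfl

/-- the number of crossings before a dart -/
noncomputable def ps (d : Dt G) : ℕ :=
  bif d.s then idx d.e d.x else k d.e - idx d.e ((nx d.e).symm d.x)

theorem ps_true (e : Ed G) (x) : ps ⟨e, true, x⟩ = idx e x := rfl
theorem ps_false (e : Ed G) (x) : ps ⟨e, false, x⟩ = k e - idx e ((nx e).symm x) := rfl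

theorem ps_eq_zero {d : Dt G} (h : ps d = 0) : d = nd (d.e, d.s) := by
  obtain ⟨e, s | s, x⟩ := d
  · rw [ps_false] at h
    have h1 := idx_le e ((nx e).symm x)
    have := idx_prev_none e (x := x) (by omega)
    subst this
    rfl
  · rw [ps_true] at h
    rw [idx_eq_zero e h]
    rfl

theorem ps_nd (p : Ed G × Bool) : ps (nd p) = 0 := by
  obtain ⟨e, s | s⟩ := p
  · show k e - idx e ((nx e).symm none) = 0
    rw [idx_prev_of_none]
    omega
  · show idx e none = 0
    exact idx_none e

theorem exists_some_of_ps {d : Dt G} (h : 0 < ps d) : ∃ f, d = ⟨d.e, d.s, some f⟩ := by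
  obtain ⟨e, s, _ | f⟩ := d
  · have : ps (⟨e, s, none⟩ : Dt G) = 0 := ps_nd (e, s)
    rw [this] at h
    exact absurd h (lt_irrefl _)
  · exact ⟨f, rfl⟩

theorem ps_some_pos (e : Ed G) (s : Bool) (f : X G e) : 0 < ps ⟨e, s, some f⟩ := by
  by_contra h
  have := ps_eq_zero (d := ⟨e, s, some f⟩) (by omega)
  rw [nd] at this
  injection this with h1 h2 h3
  injection h3

/-- the starting vertex of the directed edge of a dart -/
def sr (d : Dt G) : V := st (d.e, d.s)
/-- the end vertex of the directed edge of a dart -/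
def tg (d : Dt G) : V := st (d.e, !d.s)

theorem rv_rv (d : Dt G) : rv (rv d) = d := by
  obtain ⟨e, s | s, x⟩ := d <;> simp [rv_true, rv_false]

theorem rv_e (d : Dt G) : (rv d).e = d.e := by
  obtain ⟨e, s | s, x⟩ := d <;> rfl

theorem rv_s (d : Dt G) : (rv d).s = !d.s := by
  obtain ⟨e, s | s, x⟩ := d <;> rfl

/-- straight on: from a crossing, the piece before has position one less -/
theorem ps_straight (e : Ed G) (s : Bool) (f : X G e) :
    ps (rv (⟨e, !s, some f⟩ : Dt G)) + 1 = ps ⟨e, s, some f⟩ := by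
  rcases s with _ | _
  · -- going in direction false: the piece before is `rv ⟨e, true, some f⟩`
    show ps ⟨e, false, nx e (some f)⟩ + 1 = _
    rw [ps_false, ps_false, Equiv.symm_apply_apply]
    have h1 := idx_prev e (x := some f) (by simp)
    have h2 := idx_le e (some f)
    omega
  · show ps ⟨e, true, (nx e).symm (some f)⟩ + 1 = _
    rw [ps_true, ps_true]
    exact idx_prev e (by simp)

theorem st_adj (p : Ed G × Bool) : G.Adj (st p) (st (p.1, !p.2)) := by
  obtain ⟨e, s | s⟩ := p
  · exact e.adj.symm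
  · exact e.adj

theorem st_inj {p q : Ed G × Bool} (h1 : st p = st q) (h2 : st (p.1, !p.2) = st (q.1, !q.2)) :
    p = q := by
  obtain ⟨e, s | s⟩ := p <;> obtain ⟨f, t | t⟩ := q <;> simp only [st, cond_true, cond_false,
    Bool.not_true, Bool.not_false] at h1 h2
  · rw [Ed.ext h2 h1]
  · have a1 := e.lt; have a2 := f.lt
    rw [h1, h2] at a1
    exact absurd a1 a2.not_gt
  · have a1 := e.lt; have a2 := f.lt
    rw [h1, h2] at a1
    exact absurd a1 a2.not_gt
  · rw [Ed.ext h1 h2]

theorem exists_dir {u v : V} (h : G.Adj u v) : ∃ p : Ed G × Bool, st p = u ∧ st (p.1, !p.2) = v := by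
  rcases lt_or_gt_of_ne h.ne with h1 | h1
  · exact ⟨(⟨(u, v), h1, h⟩, true), rfl, rfl⟩
  · exact ⟨(⟨(v, u), h1, h.symm⟩, false), rfl, rfl⟩

theorem rt_cycle (p q : Ed G × Bool) (h : (τ G).SameCycle p q) : rt.SameCycle (nd p) (nd q) := by
  obtain ⟨i, hi⟩ := h.exists_nat_pow_eq
  refine ⟨i, ?_⟩
  rw [zpow_natCast]
  subst hi
  clear h
  induction i with
  | zero => rfl
  | succ n ih =>
    rw [pow_succ', Perm.mul_apply, ih, pow_succ', Perm.mul_apply, rt_nd]

/-! ### Connectedness -/

section conn

variable {s : Set (Dt G)} (hs : ∀ d ∈ s, rt d ∈ s ∧ rv d ∈ s)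
include hs

theorem ahead (e : Ed G) (x) (h : (⟨e, true, x⟩ : Dt G) ∈ s) (hx : nx e x ≠ none) :
    (⟨e, true, nx e x⟩ : Dt G) ∈ s := by
  have h1 := (hs _ h).2
  rw [rv_true] at h1
  obtain ⟨f, hf⟩ := Option.ne_none_iff_exists'.1 hx
  rw [hf] at h1 ⊢
  have h2 := (hs _ (hs _ h1).1).1
  rw [rt_rt_some] at h2
  exact h2

theorem back (e : Ed G) (x) (h : (⟨e, false, x⟩ : Dt G) ∈ s) (hx : (nx e).symm x ≠ none) :
    (⟨e, false, (nx e).symm x⟩ : Dt G) ∈ s := by
  have h1 := (hs _ h).2
  rw [rv_false] at h1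
  obtain ⟨f, hf⟩ := Option.ne_none_iff_exists'.1 hx
  rw [hf] at h1 ⊢
  have h2 := (hs _ (hs _ h1).1).1
  rw [rt_rt_some] at h2
  exact h2

theorem to_end (e : Ed G) (x) (h : (⟨e, true, x⟩ : Dt G) ∈ s) : (⟨e, false, none⟩ : Dt G) ∈ s := by
  obtain ⟨n, hn⟩ : ∃ n, n = k e - idx e x := ⟨_, rfl⟩
  induction n generalizing x with
  | zero =>
    have h1 : idx e x = k e := le_antisymm (idx_le e x) (by omega)
    have h2 := idx_eq_zero e (idx_last e x h1)
    have h3 := (hs _ h).2
    rw [rv_true, h2] at h3
    exact h3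
  | succ n ih =>
    have h1 : idx e x ≠ k e := by omega
    have h2 := idx_next e x h1
    refine ih (nx e x) (ahead hs e x h ?_) (by omega)
    intro h3
    rw [h3, idx_none] at h2
    omega

theorem to_start (e : Ed G) (x) (h : (⟨e, false, x⟩ : Dt G) ∈ s) :
    (⟨e, true, none⟩ : Dt G) ∈ s := by
  obtain ⟨n, hn⟩ : ∃ n, n = idx e ((nx e).symm x) := ⟨_, rfl⟩
  induction n generalizing x with
  | zero =>
    have h2 := idx_eq_zero e hn.symm
    have h3 := (hs _ h).2
    rw [rv_false, h2] at h3
    exact h3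
  | succ n ih =>
    have h1 : (nx e).symm x ≠ none := by
      intro h3
      rw [h3, idx_none] at hn
      omega
    have h2 := idx_prev e h1
    exact ih ((nx e).symm x) (back hs e x h h1) (by omega)

theorem all_true (e : Ed G) (h : (⟨e, true, none⟩ : Dt G) ∈ s) (x) : (⟨e, true, x⟩ : Dt G) ∈ s := by
  obtain ⟨n, hn⟩ : ∃ n, n = idx e x := ⟨_, rfl⟩
  induction n generalizing x with
  | zero => rw [idx_eq_zero e hn.symm]; exact h
  | succ n ih =>
    have h1 : x ≠ none := by
      rintro rfl
      rw [idx_none] at hn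
      omega
    have h2 := idx_prev e h1
    have h3 := ih ((nx e).symm x) (by omega)
    have h4 := ahead hs e _ h3 (by rwa [Equiv.apply_symm_apply])
    rwa [Equiv.apply_symm_apply] at h4

theorem all_darts (e : Ed G) (t : Bool) (x) (h : (⟨e, t, x⟩ : Dt G) ∈ s) (t' : Bool) (x') :
    (⟨e, t', x'⟩ : Dt G) ∈ s := by
  have h1 : (⟨e, true, none⟩ : Dt G) ∈ s := by
    rcases t with _ | _
    · exact to_start hs e x h
    · exact to_start hs e none (to_end hs e x h)
  rcases t' with _ | _
  · have h2 := (hs _ (all_true hs e h1 ((nx e).symm x'))).2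
    rw [rv_true, Equiv.apply_symm_apply] at h2
    exact h2
  · exact all_true hs e h1 x'

theorem conn_aux (hne : s.Nonempty) : s = Set.univ := by
  obtain ⟨⟨e, t, x⟩, hd⟩ := hne
  ext ⟨f, t', y⟩
  simp only [Set.mem_univ, iff_true]
  by_cases hi : Ind e f
  · have h1 := all_darts hs e t x hd true (some ⟨f, hi⟩)
    have h2 := (hs _ h1).1
    rw [rt_some] at h2
    exact all_darts hs f _ _ h2 t' y
  · have h1 : ∃ a b : Bool, st (e, a) = st (f, b) := by
      by_contra hcon
      push Not at hcon
      apply hi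
      exact ⟨hcon true true, hcon true false, hcon false true, hcon false false⟩
    obtain ⟨a, b, hab⟩ := h1
    have h2 := all_darts hs e t x hd a none
    have h3 := rt_cycle _ _ (τ_cycle _ _ hab)
    obtain ⟨i, hi⟩ := h3.exists_nat_pow_eq
    have h4 : (rt ^ i) (nd (e, a)) ∈ s := by
      clear hi
      induction i with
      | zero => exact h2
      | succ n ih => rw [pow_succ', Perm.mul_apply]; exact (hs _ ih).1
    rw [hi] at h4
    exact all_darts hs f _ _ h4 t' y

end conn

open TH482.HT in
/-- the drawing -/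
noncomputable def drawing : Drawing G where
  D := Dt G
  fin := inferInstance
  rot := rt
  rev := rv
  rev_rev := rv_rv
  rev_ne := by
    intro d h
    have := rv_s d
    rw [h] at this
    cases hd : d.s <;> rw [hd] at this <;> simp at this
  conn := fun s hne hs => conn_aux hs hne
  src := sr
  tgt := tg
  pos := ps
  adj := fun d => st_adj (d.e, d.s)
  src_rev := by
    intro d
    rw [sr, rv_e, rv_s]
    rfl
  start := by
    intro u v h
    obtain ⟨p, hp1, hp2⟩ := exists_dir h
    refine ⟨nd p, ⟨hp1, hp2, ps_nd p⟩, ?_⟩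
    rintro d ⟨h1, h2, h3⟩
    rw [ps_eq_zero h3]
    congr 1
    exact st_inj (h1.trans hp1.symm) (h2.trans hp2.symm)
  vertex := by
    intro d h
    rw [ps_eq_zero h, rt_nd]
    exact ⟨ps_nd _, st_τ _⟩
  vertex_cyclic := by
    intro d d' h h' hh
    rw [ps_eq_zero h, ps_eq_zero h']
    exact rt_cycle _ _ (τ_cycle _ _ hh)
  cross := by
    intro d h
    obtain ⟨f, hf⟩ := exists_some_of_ps h
    rw [hf, rt_rt_some, rt_rt_some, Bool.not_not]
    exact ⟨by rw [rt_some]; exact ps_some_pos _ _ _, rfl⟩
  cross_prev := by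
    intro d h
    obtain ⟨f, hf⟩ := exists_some_of_ps h
    rw [hf, rt_rt_some]
    refine ⟨?_, ?_, ps_straight _ _ _⟩
    · rw [sr, rv_e, rv_s]; simp [sr]
    · rw [tg, rv_e, rv_s]; simp [tg]
  cross_ne := by
    intro d h
    obtain ⟨f, hf⟩ := exists_some_of_ps h
    rw [hf, rt_some]
    obtain ⟨h1, h2, h3, h4⟩ := f.2
    simp only [sr, tg, st]
    constructor
    · rintro ⟨h5, h6⟩
      revert h5 h6
      cases d.s <;> cases (decide (f.1.r < d.e.r)) <;> simp <;> intro h5 h6
      all_goals first
        | exact absurd h5.symm h4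
        | exact absurd h5.symm h3
        | exact absurd h5.symm h2
        | exact absurd h5.symm h1
    · rintro ⟨h5, h6⟩
      revert h5 h6
      cases d.s <;> cases (decide (f.1.r < d.e.r)) <;> simp <;> intro h5 h6
      all_goals first
        | exact absurd h5.symm h4
        | exact absurd h5.symm h3
        | exact absurd h5.symm h2
        | exact absurd h5.symm h1

end

end Pool.Agent.V11120.Thr
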