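import Pool.Agent.V11120.Thr.Draw
import Pool.Agent.V11120.Maps.Basic

/-!
# The Euler characteristic of the thrackle drawing
-/

set_option autoImplicit false
set_option linter.unusedVariables false
set_option linter.unusedSectionVars false

namespace Pool.Agent.V11120.Thr

open Equiv Finset

theorem card_le_of_rel {X Y : Type} [Fintype Y] (s : Finset X) (P : X → Y → Prop)
    (h1 : ∀ p ∈ s, ∃ y, P p y) (h2 : ∀ p ∈ s, ∀ q ∈ s, ∀ y, P p y → P q y → p = q) :
    #s ≤ Fintype.card Y := by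
  classical
  choose f hf using h1
  have h3 : #s.attach ≤ #(univ : Finset Y) := by
    refine card_le_card_of_injOn (fun p => f p.1 p.2) (fun _ _ => mem_coe.2 (mem_univ _)) ?_
    intro p _ q _ hpq
    apply Subtype.ext
    refine h2 p.1 p.2 q.1 q.2 _ (hf p.1 p.2) ?_
    have : f p.1 p.2 = f q.1 q.2 := hpq
    rw [this]
    exact hf q.1 q.2
  rwa [card_attach, card_univ] at h3

section

variable {V : Type} [Fintype V] [LinearOrder V] {G : SimpleGraph V}

/-- `e` comes before `f`, and they are independent -/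
def R (e f : Ed G) : Prop := e.r < f.r ∧ f.l ≠ e.l ∧ f.l ≠ e.r

theorem R.ind {e f : Ed G} (h : R e f) : Ind e f :=
  ⟨h.2.1.symm, (e.lt.trans h.1).ne, h.2.2.symm, h.1.ne⟩

theorem R.asymm {e f : Ed G} (h : R e f) : ¬ R f e := fun h' => absurd h.1 h'.1.not_gt

theorem R_or {e f : Ed G} (h : Ind e f) : R e f ∨ R f e := by
  rcases lt_or_gt_of_ne h.2.2.2 with h1 | h1
  · exact Or.inl ⟨h1, h.1.symm, h.2.2.1.symm⟩
  · exact Or.inr ⟨h1, h.1, h.2.1⟩

theorem nx_of {e : Ed G} {g h : X G e} (h1 : key e g < key e h)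
    (h2 : ∀ t : X G e, key e g < key e t → ¬ key e t < key e h) : nx e (some g) = some h := by
  have h3 : o e g < o e h := (o_lt e g h).2 h1
  have h4 : (o e h).val = (o e g).val + 1 := by
    by_contra hne
    have h5 : (o e g).val + 1 < (o e h).val := by
      have : (o e g).val < (o e h).val := h3
      omega
    have h6 : (o e g).val + 1 < Fintype.card (X G e) := lt_trans h5 (o e h).isLt
    obtain ⟨t, ht⟩ := (o e).surjective ⟨(o e g).val + 1, h6⟩
    refine h2 t ((o_lt e g t).1 ?_) ((o_lt e t h).1 ?_)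
    · rw [ht, Fin.lt_def]; exact Nat.lt_succ_self _
    · rw [ht, Fin.lt_def]; exact h5
  apply idx_inj e
  rw [idx_next, idx_some, idx_some, h4]
  rw [idx_some]
  have := (o e h).isLt
  unfold k
  omega

theorem key_row {e f : Ed G} (h : Ind e f) (hr : e.r < f.r) :
    key e ⟨f, h⟩ = toLex (true, toLex (f.l, f.r)) := by
  unfold key
  rw [if_neg]
  exact hr.not_gt

theorem key_col {e f : Ed G} (h : Ind e f) (hr : f.r < e.r) :
    key e ⟨f, h⟩ = toLex (false, toLex (f.r, f.l)) := by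
  unfold key
  rw [if_pos hr]

/-- consecutive crossings in the row part of `e` -/
theorem nx_row {e f f' : Ed G} (h : R e f) (h' : R e f')
    (hlt : toLex (f.l, f.r) < toLex (f'.l, f'.r))
    (hno : ∀ t : Ed G, R e t → toLex (f.l, f.r) < toLex (t.l, t.r) →
      ¬ toLex (t.l, t.r) < toLex (f'.l, f'.r)) :
    nx e (some ⟨f, h.ind⟩) = some ⟨f', h'.ind⟩ := by
  apply nx_of
  · rw [key_row _ h.1, key_row _ h'.1]
    exact Prod.Lex.toLex_lt_toLex.2 (Or.inr ⟨rfl, hlt⟩)
  · rintro ⟨t, ht⟩ h1 h2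
    rcases R_or ht with h3 | h3
    · rw [key_row _ h.1, key_row _ h3.1] at h1
      rw [key_row _ h'.1, key_row _ h3.1] at h2
      rcases Prod.Lex.toLex_lt_toLex.1 h1 with h4 | ⟨_, h4⟩
      · exact absurd h4 (lt_irrefl _)
      rcases Prod.Lex.toLex_lt_toLex.1 h2 with h5 | ⟨_, h5⟩
      · exact absurd h5 (lt_irrefl _)
      exact hno t h3 h4 h5
    · rw [key_row _ h.1, key_col _ h3.1] at h1
      rcases Prod.Lex.toLex_lt_toLex.1 h1 with h4 | ⟨h4, _⟩
      · exact absurd (show ((true : Bool) < false) from h4) (by decide)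
      · simp at h4

/-- consecutive crossings in the column part of `f` -/
theorem nx_col {f e e' : Ed G} (h : R e f) (h' : R e' f)
    (hlt : toLex (e.r, e.l) < toLex (e'.r, e'.l))
    (hno : ∀ t : Ed G, R t f → toLex (e.r, e.l) < toLex (t.r, t.l) →
      ¬ toLex (t.r, t.l) < toLex (e'.r, e'.l)) :
    nx f (some ⟨e, h.ind.symm⟩) = some ⟨e', h'.ind.symm⟩ := by
  apply nx_of
  · rw [key_col _ h.1, key_col _ h'.1]
    exact Prod.Lex.toLex_lt_toLex.2 (Or.inr ⟨rfl, hlt⟩)
  · rintro ⟨t, ht⟩ h1 h2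
    rcases R_or ht with h3 | h3
    · rw [key_col _ h'.1, key_row _ h3.1] at h2
      rcases Prod.Lex.toLex_lt_toLex.1 h2 with h4 | ⟨h4, _⟩
      · exact absurd (show ((true : Bool) < false) from h4) (by decide)
      · simp at h4
    · rw [key_col _ h.1, key_col _ h3.1] at h1
      rw [key_col _ h'.1, key_col _ h3.1] at h2
      rcases Prod.Lex.toLex_lt_toLex.1 h1 with h4 | ⟨_, h4⟩
      · exact absurd h4 (lt_irrefl _)
      rcases Prod.Lex.toLex_lt_toLex.1 h2 with h5 | ⟨_, h5⟩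
      · exact absurd h5 (lt_irrefl _)
      exact hno t h3 h4 h5

/-! ### The four darts around an empty rectangle -/

/-- the face of an empty rectangle -/
theorem face_rect {e₀ e f f' : Ed G} (h₀ : R e₀ f) (h₀' : R e₀ f') (h : R e f) (h' : R e f')
    (n1 : nx f (some ⟨e₀, h₀.ind.symm⟩) = some ⟨e, h.ind.symm⟩)
    (n2 : nx f' (some ⟨e₀, h₀'.ind.symm⟩) = some ⟨e, h'.ind.symm⟩)
    (n3 : nx e (some ⟨f, h.ind⟩) = some ⟨f', h'.ind⟩)
    (n4 : nx e₀ (some ⟨f, h₀.ind⟩) = some ⟨f', h₀'.ind⟩) {d : Dt G}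
    (hd : (rt * rv).SameCycle (⟨f, true, some ⟨e₀, h₀.ind.symm⟩⟩ : Dt G) d) :
    d = ⟨f, true, some ⟨e₀, h₀.ind.symm⟩⟩ ∨ d = ⟨e, true, some ⟨f, h.ind⟩⟩ ∨
      d = ⟨f', false, some ⟨e, h'.ind.symm⟩⟩ ∨ d = ⟨e₀, false, some ⟨f', h₀'.ind⟩⟩ := by
  refine Pool.Agent.V11120.Maps.mem_of_sameCycle
    (T := {d | d = ⟨f, true, some ⟨e₀, h₀.ind.symm⟩⟩ ∨ d = ⟨e, true, some ⟨f, h.ind⟩⟩ ∨
      d = ⟨f', false, some ⟨e, h'.ind.symm⟩⟩ ∨ d = ⟨e₀, false, some ⟨f', h₀'.ind⟩⟩}) ?_
    (Or.inl rfl) hd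
  rintro x (rfl | rfl | rfl | rfl)
  · right; left
    rw [Perm.mul_apply, rv_true, n1, rt_some]
    simp only [h.1, decide_true]
    rfl
  · right; right; left
    rw [Perm.mul_apply, rv_true, n3, rt_some]
    simp only [h'.1.not_gt, decide_false]
    rfl
  · right; right; right
    rw [Perm.mul_apply, rv_false]
    have : (nx f').symm (some ⟨e, h'.ind.symm⟩) = some ⟨e₀, h₀'.ind.symm⟩ := by
      rw [Equiv.symm_apply_eq, n2]
    rw [this, rt_some]
    simp only [h₀'.1, decide_true]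
    rfl
  · left
    rw [Perm.mul_apply, rv_false]
    have : (nx e₀).symm (some ⟨f', h₀'.ind⟩) = some ⟨f, h₀.ind⟩ := by
      rw [Equiv.symm_apply_eq, n4]
    rw [this, rt_some]
    simp only [h₀.1.not_gt, decide_false]
    rfl

/-! ### Counting -/

open Classical in
variable (G) in
/-- the pairs of crossing edges -/
noncomputable def Rel : Finset (Ed G × Ed G) := univ.filter fun p => R p.1 p.2

open Classical in
theorem card_Rel_eq : #(Rel G) = ∑ e : Ed G, #(univ.filter fun f : Ed G => R e f) := by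
  rw [Rel, card_filter, ← univ_product_univ, sum_product]
  refine sum_congr rfl fun e _ => ?_
  rw [card_filter]

open Classical in
theorem card_Rel_eq' : #(Rel G) = ∑ e : Ed G, #(univ.filter fun f : Ed G => R f e) := by
  rw [Rel, card_filter, ← univ_product_univ, sum_product_right]
  refine sum_congr rfl fun e _ => ?_
  rw [card_filter]

theorem sum_k_le : ∑ e : Ed G, k e ≤ 2 * #(Rel G) := by
  classical
  have h : ∀ e : Ed G, k e ≤ #(univ.filter fun f : Ed G => R e f) +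
      #(univ.filter fun f : Ed G => R f e) := by
    intro e
    refine le_trans ?_ (card_union_le _ _)
    rw [k, ← card_univ]
    refine card_le_card_of_injOn (fun x => x.1) ?_ ?_
    · intro x _
      rcases R_or x.2 with h1 | h1
      · exact mem_coe.2 (mem_union_left _ (mem_filter.2 ⟨mem_univ _, h1⟩))
      · exact mem_coe.2 (mem_union_right _ (mem_filter.2 ⟨mem_univ _, h1⟩))
    · intro x _ y _ hxy
      exact Subtype.ext hxy
  calc ∑ e : Ed G, k e ≤ ∑ e : Ed G, (#(univ.filter fun f : Ed G => R e f) +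
      #(univ.filter fun f : Ed G => R f e)) := sum_le_sum fun e _ => h e
    _ = 2 * #(Rel G) := by
      rw [sum_add_distrib, ← card_Rel_eq, ← card_Rel_eq']
      ring

theorem card_Dt : Fintype.card (Dt G) ≤ 2 * Fintype.card (Ed G) + 4 * #(Rel G) := by
  classical
  have h1 : Fintype.card (Dt G) = ∑ e : Ed G, 2 * (k e + 1) := by
    rw [← Fintype.card_congr (dtEquiv (G := G)), Fintype.card_sigma]
    refine sum_congr rfl fun e _ => ?_
    rw [Fintype.card_prod, Fintype.card_bool, Fintype.card_option]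
    rfl
  rw [h1, ← mul_sum, sum_add_distrib]
  have h2 := sum_k_le (G := G)
  simp only [sum_const, card_univ, smul_eq_mul, mul_one]
  omega

theorem orbits_rv : TH482.HT.numOrbits (rv (G := G)) ≤ Fintype.card (Ed G) + 2 * #(Rel G) := by
  have h1 := card_Dt (G := G)
  have h2 := Pool.Agent.V11120.Maps.card_eq_two_mul (α := rv (G := G)) rv_rv (by
    intro d h
    have := rv_s d
    rw [h] at this
    cases hd : d.s <;> rw [hd] at this <;> simp at this)
  have h3 : Pool.Agent.V11120.Maps.numOrbits (rv (G := G)) = TH482.HT.numOrbits rv := rfl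
  omega

theorem orbits_rt : #(Rel G) ≤ TH482.HT.numOrbits (rt (G := G)) := by
  classical
  haveI : Fintype (Quotient (Perm.SameCycle.setoid (rt (G := G)))) := Fintype.ofFinite _
  rw [TH482.HT.numOrbits, Nat.card_eq_fintype_card]
  refine card_le_of_rel (Rel G) (fun p q => ∃ h : Ind p.1 p.2,
    q = Quotient.mk _ (⟨p.1, true, some ⟨p.2, h⟩⟩ : Dt G)) ?_ ?_
  · intro p hp
    exact ⟨_, (mem_filter.1 hp).2.ind, rfl⟩
  rintro ⟨e, f⟩ hp' ⟨e', f'⟩ hq' q ⟨hi, h0⟩ ⟨hi', h0'⟩
  have h1 : rt.SameCycle (⟨e, true, some ⟨f, hi⟩⟩ : Dt G) ⟨e', true, some ⟨f', hi'⟩⟩ :=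
    Quotient.exact (h0.symm.trans h0')
  have hR := (mem_filter.1 hp').2
  have hR' := (mem_filter.1 hq').2
  simp only at hR hR'
  have h2 := Pool.Agent.V11120.Maps.mem_of_sameCycle
    (T := {d | (∃ s h, d = ⟨e, s, some ⟨f, h⟩⟩) ∨ (∃ s h, d = ⟨f, s, some ⟨e, h⟩⟩)}) (by
      rintro x (⟨s, h, rfl⟩ | ⟨s, h, rfl⟩)
      · right; exact ⟨_, h.symm, rt_some _ _ _⟩
      · left; exact ⟨_, h.symm, rt_some _ _ _⟩) (Or.inl ⟨_, _, rfl⟩) h1
  rcases h2 with ⟨s, h, h3⟩ | ⟨s, h, h3⟩
  · injection h3 with h4 h5 h6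
    subst h4
    simp only [heq_eq_eq, Option.some.injEq] at h6
    have h7 : f' = f := congrArg Subtype.val h6
    rw [h7]
  · injection h3 with h4 h5 h6
    subst h4
    simp only [heq_eq_eq, Option.some.injEq] at h6
    have h7 : f' = e := congrArg Subtype.val h6
    rw [h7] at hR'
    exact absurd hR hR'.asymm

/-! ### The matrix -/

variable (G) in
/-- the number of edges -/
noncomputable def mm : ℕ := Fintype.card (Ed G)

theorem keyP_inj : Function.Injective fun e : Ed G => toLex (e.r, e.l) := by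
  intro e f h
  simp only [EmbeddingLike.apply_eq_iff_eq, Prod.mk.injEq] at h
  exact Ed.ext h.2 h.1

theorem keyS_inj : Function.Injective fun e : Ed G => toLex (e.l, e.r) := by
  intro e f h
  simp only [EmbeddingLike.apply_eq_iff_eq, Prod.mk.injEq] at h
  exact Ed.ext h.1 h.2

/-- rank in the order by right ends -/
noncomputable def oP : Ed G ≃ Fin (mm G) := (exists_rank _ keyP_inj).choose
/-- rank in the order by left ends -/
noncomputable def oS : Ed G ≃ Fin (mm G) := (exists_rank _ keyS_inj).choose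

theorem oP_lt (e f : Ed G) : oP e < oP f ↔ toLex (e.r, e.l) < toLex (f.r, f.l) :=
  (exists_rank _ keyP_inj).choose_spec e f
theorem oS_lt (e f : Ed G) : oS e < oS f ↔ toLex (e.l, e.r) < toLex (f.l, f.r) :=
  (exists_rank _ keyS_inj).choose_spec e f

variable (h0 : 0 < mm G)
include h0

/-- the `i`-th edge in the order by right ends -/
noncomputable def eP (i : ℕ) : Ed G := oP.symm ⟨min i (mm G - 1), by omega⟩
/-- the `i`-th edge in the order by left ends -/
noncomputable def eS (i : ℕ) : Ed G := oS.symm ⟨min i (mm G - 1), by omega⟩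

theorem oP_eP {i : ℕ} (hi : i < mm G) : (oP (eP h0 i)).val = i := by
  rw [eP, Equiv.apply_symm_apply]
  show min i (mm G - 1) = i
  omega

theorem oS_eS {i : ℕ} (hi : i < mm G) : (oS (eS h0 i)).val = i := by
  rw [eS, Equiv.apply_symm_apply]
  show min i (mm G - 1) = i
  omega

theorem eP_oP (e : Ed G) : eP h0 (oP e).val = e := by
  apply oP.injective
  apply Fin.ext
  exact oP_eP h0 (oP e).isLt

theorem eS_oS (e : Ed G) : eS h0 (oS e).val = e := by
  apply oS.injective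
  apply Fin.ext
  exact oS_eS h0 (oS e).isLt

theorem eP_lt {i j : ℕ} (hi : i < mm G) (hj : j < mm G) :
    toLex ((eP h0 i).r, (eP h0 i).l) < toLex ((eP h0 j).r, (eP h0 j).l) ↔ i < j := by
  rw [← oP_lt, Fin.lt_def, oP_eP h0 hi, oP_eP h0 hj]

theorem eS_lt {i j : ℕ} (hi : i < mm G) (hj : j < mm G) :
    toLex ((eS h0 i).l, (eS h0 i).r) < toLex ((eS h0 j).l, (eS h0 j).r) ↔ i < j := by
  rw [← oS_lt, Fin.lt_def, oS_eS h0 hi, oS_eS h0 hj]

/-- the crossing matrix -/
def AM : ℕ → ℕ → Prop :=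
  Mat (mm G) (fun i => (eP h0 i).l) (fun i => (eP h0 i).r) (fun i => (eS h0 i).l)
    (fun i => (eS h0 i).r)

theorem AM_iff {i j : ℕ} : AM h0 i j ↔ i < mm G ∧ j < mm G ∧ R (eP h0 i) (eS h0 j) := Iff.rfl

open Classical in
theorem card_ones : #(Rel G) ≤ #((range (mm G) ×ˢ range (mm G)).filter fun p => AM h0 p.1 p.2) := by
  refine card_le_card_of_injOn (fun p => ((oP p.1).val, (oS p.2).val)) ?_ ?_
  · rintro ⟨e, f⟩ hp
    have hR := (mem_filter.1 (mem_coe.1 hp)).2
    refine mem_coe.2 (mem_filter.2 ⟨mem_product.2 ⟨mem_range.2 (oP e).isLt,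
      mem_range.2 (oS f).isLt⟩, ?_⟩)
    rw [AM_iff]
    refine ⟨(oP e).isLt, (oS f).isLt, ?_⟩
    rw [eP_oP, eS_oS]
    exact hR
  · rintro ⟨e, f⟩ _ ⟨e', f'⟩ _ h
    simp only [Prod.mk.injEq] at h
    rw [oP.injective (Fin.ext h.1), oS.injective (Fin.ext h.2)]

open Classical in
theorem card_W : #((range (mm G) ×ˢ range (mm G)).filter fun p => p.1 + 1 < mm G ∧
    p.2 + 1 < mm G ∧ Corner (AM h0) p.1 p.2) ≤ 18 * mm G := by
  refine card_corners (mm G) _ _ _ _ ?_ ?_ ?_ ?_
  · intro i i' hi hi'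
    rcases hi.lt_or_eq with h | h
    · have := (eP_lt h0 (by omega) hi').2 h
      rcases Prod.Lex.toLex_lt_toLex.1 this with h1 | ⟨h1, _⟩
      · exact h1.le
      · exact h1.le
    · rw [h]
  · intro i i' hi hi'
    rcases hi.lt_or_eq with h | h
    · have := (eS_lt h0 (by omega) hi').2 h
      rcases Prod.Lex.toLex_lt_toLex.1 this with h1 | ⟨h1, _⟩
      · exact h1.le
      · exact h1.le
    · rw [h]
  · intro i i' hi hi' hl
    rcases hi.lt_or_eq with h | h
    · have := (eS_lt h0 (by omega) hi').2 h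
      rcases Prod.Lex.toLex_lt_toLex.1 this with h1 | ⟨_, h1⟩
      · exact absurd hl h1.ne
      · exact h1.le
    · rw [h]
  · intro i j hi hj h
    -- the edge `eS j` comes after `eP i` in the order by right ends
    have h1 : i < (oP (eS h0 j)).val := by
      rw [← eP_lt h0 (by omega) (oP (eS h0 j)).isLt, eP_oP]
      exact Prod.Lex.toLex_lt_toLex.2 (Or.inl h)
    rcases (Nat.succ_le_of_lt h1).lt_or_eq with h2 | h2
    · have := (eP_lt h0 hi (oP (eS h0 j)).isLt).2 h2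
      rw [eP_oP] at this
      rcases Prod.Lex.toLex_lt_toLex.1 this with h3 | ⟨h3, _⟩
      · exact h3.le
      · exact h3.le
    · have : eP h0 (i + 1) = eS h0 j := by
        rw [show i + 1 = (oP (eS h0 j)).val from h2, eP_oP]
      show (eP h0 (i + 1)).r ≤ (eS h0 j).r
      rw [this]

open Classical in
theorem card_rects : #((range (mm G) ×ˢ range (mm G)).filter fun p => RectStart (AM h0) p.1 p.2) ≤
    TH482.HT.numOrbits (rt (G := G) * rv) := by
  haveI : Fintype (Quotient (Perm.SameCycle.setoid (rt (G := G) * rv))) := Fintype.ofFinite _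
  rw [TH482.HT.numOrbits, Nat.card_eq_fintype_card]
  refine card_le_of_rel _ (fun p q => ∃ h : Ind (eS h0 p.2) (eP h0 p.1),
    q = Quotient.mk _ (⟨eS h0 p.2, true, some ⟨eP h0 p.1, h⟩⟩ : Dt G)) ?_ ?_
  · intro p hp
    obtain ⟨_, i', j', _, _, hA, _⟩ := mem_filter.1 hp
    exact ⟨_, (AM_iff h0).1 hA |>.2.2.ind.symm, rfl⟩
  rintro ⟨i, j⟩ hp ⟨i₂, j₂⟩ hq q ⟨hi, hq1⟩ ⟨hi₂, hq2⟩
  obtain ⟨_, i', j', hii, hjj, a1, a2, a3, a4, z1, z2, z3, z4⟩ := mem_filter.1 hp
  obtain ⟨_, _, _, _, _, b1, _⟩ := mem_filter.1 hq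
  simp only at hii hjj a1 a2 a3 a4 z1 z2 z3 z4 b1
  obtain ⟨m1, m2, r1⟩ := (AM_iff h0).1 a1
  obtain ⟨_, m3, r2⟩ := (AM_iff h0).1 a2
  obtain ⟨m4, _, r3⟩ := (AM_iff h0).1 a3
  obtain ⟨_, _, r4⟩ := (AM_iff h0).1 a4
  obtain ⟨m5, m6, r5⟩ := (AM_iff h0).1 b1
  have hcol : ∀ jj, jj < mm G → (∀ t, i < t → t < i' → ¬ AM h0 t jj) →
      (h : R (eP h0 i) (eS h0 jj)) → (h' : R (eP h0 i') (eS h0 jj)) →
      nx (eS h0 jj) (some ⟨eP h0 i, h.ind.symm⟩) = some ⟨eP h0 i', h'.ind.symm⟩ := by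
    intro jj hjj' hz h h'
    refine nx_col h h' ((eP_lt h0 m1 m4).2 hii) ?_
    intro t ht1 ht2 ht3
    rw [← eP_oP h0 t] at ht2 ht3
    rw [eP_lt h0 m1 (oP t).isLt] at ht2
    rw [eP_lt h0 (oP t).isLt m4] at ht3
    refine hz _ ht2 ht3 ((AM_iff h0).2 ⟨(oP t).isLt, hjj', ?_⟩)
    rw [eP_oP]
    exact ht1
  have hrow : ∀ ii, ii < mm G → (∀ t, j < t → t < j' → ¬ AM h0 ii t) →
      (h : R (eP h0 ii) (eS h0 j)) → (h' : R (eP h0 ii) (eS h0 j')) →
      nx (eP h0 ii) (some ⟨eS h0 j, h.ind⟩) = some ⟨eS h0 j', h'.ind⟩ := by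
    intro ii hii' hz h h'
    refine nx_row h h' ((eS_lt h0 m2 m3).2 hjj) ?_
    intro t ht1 ht2 ht3
    rw [← eS_oS h0 t] at ht2 ht3
    rw [eS_lt h0 m2 (oS t).isLt] at ht2
    rw [eS_lt h0 (oS t).isLt m3] at ht3
    refine hz _ ht2 ht3 ((AM_iff h0).2 ⟨hii', (oS t).isLt, ?_⟩)
    rw [eS_oS]
    exact ht1
  have hs : (rt * rv).SameCycle (⟨eS h0 j, true, some ⟨eP h0 i, r1.ind.symm⟩⟩ : Dt G)
      ⟨eS h0 j₂, true, some ⟨eP h0 i₂, hi₂⟩⟩ := Quotient.exact (hq1.symm.trans hq2)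
  have h5 := face_rect r1 r2 r3 r4 (hcol j m2 z3 r1 r3) (hcol j' m3 z4 r2 r4)
    (hrow i' m4 z2 r3 r4) (hrow i m1 z1 r1 r2) hs
  rcases h5 with h5 | h5 | h5 | h5
  · injection h5 with h6 h7 h8
    have e1 : eP h0 i₂ = eP h0 i := by
      have : ∀ (e e' : Ed G) (f : X G e) (f' : X G e'), e = e' → some f ≍ some f' →
          f.1 = f'.1 := by
        intro e e' f f' h h'
        subst h
        simp only [heq_eq_eq, Option.some.injEq] at h'
        rw [h']
      exact this _ _ _ _ h6 h8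
    have e2 : i₂ = i := by
      have := oP_eP h0 m5
      rw [e1, oP_eP h0 m1] at this
      exact this.symm
    have e3 : j₂ = j := by
      have := oS_eS h0 m6
      rw [h6, oS_eS h0 m2] at this
      exact this.symm
    rw [e2, e3]
  · injection h5 with h6 h7 h8
    have e1 : eP h0 i₂ = eS h0 j := by
      have : ∀ (e e' : Ed G) (f : X G e) (f' : X G e'), e = e' → some f ≍ some f' →
          f.1 = f'.1 := by
        intro e e' f f' h h'
        subst h
        simp only [heq_eq_eq, Option.some.injEq] at h'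
        rw [h']
      exact this _ _ _ _ h6 h8
    rw [e1, h6] at r5
    exact absurd r3 r5.asymm
  · injection h5 with h6 h7 h8
    exact absurd h7 (by decide)
  · injection h5 with h6 h7 h8
    exact absurd h7 (by decide)

theorem euler_ge : 2 - 2 * ((21 * mm G : ℕ) : ℤ) ≤ (drawing (G := G)).euler := by
  classical
  have e1 := card_ones_le (AM h0) (mm G) (fun i j h => ⟨((AM_iff h0).1 h).1, ((AM_iff h0).1 h).2.1⟩)
  have e2 := card_W h0
  have e3 := card_rects h0
  have e4 := card_ones h0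
  have e5 := orbits_rt (G := G)
  have e6 := orbits_rv (G := G)
  have e7 : (drawing (G := G)).euler = (TH482.HT.numOrbits (rt (G := G)) : ℤ) -
    (TH482.HT.numOrbits (rv (G := G)) : ℤ) + (TH482.HT.numOrbits (rt (G := G) * rv) : ℤ) := rfl
  rw [e7]
  have e8 : mm G = Fintype.card (Ed G) := rfl
  rw [← e8] at e6
  push_cast
  omega

end

end Pool.Agent.V11120.Thr
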