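import Mathlib

/-!
# Empty rectangles in 0/1 matrices
-/

set_option autoImplicit false
set_option linter.unusedVariables false

namespace Pool.Agent.V11120.Thr

open Finset

/-- the window with upper left corner `(a, b)` is a corner window: neither its two rows nor its two
columns are equal -/
def Corner (A : ℕ → ℕ → Prop) (a b : ℕ) : Prop :=
  ¬ ((A a b ↔ A (a + 1) b) ∧ (A a (b + 1) ↔ A (a + 1) (b + 1))) ∧
  ¬ ((A a b ↔ A a (b + 1)) ∧ (A (a + 1) b ↔ A (a + 1) (b + 1)))

/-- `(i, j)` is the upper left corner of an empty rectangle -/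
def RectStart (A : ℕ → ℕ → Prop) (i j : ℕ) : Prop :=
  ∃ i' j', i < i' ∧ j < j' ∧ A i j ∧ A i j' ∧ A i' j ∧ A i' j' ∧
    (∀ t, j < t → t < j' → ¬ A i t) ∧ (∀ t, j < t → t < j' → ¬ A i' t) ∧
    (∀ t, i < t → t < i' → ¬ A t j) ∧ (∀ t, i < t → t < i' → ¬ A t j')

theorem exists_next {P : ℕ → Prop} {j : ℕ} (h : ∃ t, j < t ∧ P t) :
    ∃ j', j < j' ∧ P j' ∧ ∀ t, j < t → t < j' → ¬ P t := by
  classical
  refine ⟨Nat.find h, (Nat.find_spec h).1, (Nat.find_spec h).2, fun t h1 h2 h3 => ?_⟩
  exact Nat.find_min h h2 ⟨h1, h3⟩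

theorem rectStart_of {A : ℕ → ℕ → Prop} {i j i' j' : ℕ} (hA : A i j) (hj : j < j') (hj' : A i j')
    (hjn : ∀ t, j < t → t < j' → ¬ A i t) (hi : i < i') (hi' : A i' j)
    (hin : ∀ t, i < t → t < i' → ¬ A t j)
    (hW1 : ∀ b, j ≤ b → b < j' → ¬ Corner A i b) (hW2 : ∀ a, i ≤ a → a < i' → ¬ Corner A a j) :
    RectStart A i j := by
  by_cases h1 : A (i + 1) j
  · have hi1 : i' = i + 1 := by
      by_contra hne
      exact hin (i + 1) (by omega) (by omega) h1
    subst hi1
    have key : ∀ b, j ≤ b → b ≤ j' → (A i b ↔ A (i + 1) b) := by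
      intro b hb
      induction b, hb using Nat.le_induction with
      | base => intro _; exact ⟨fun _ => h1, fun _ => hA⟩
      | succ b hb ih =>
        intro hb'
        have ih' := ih (by omega)
        have hc := hW1 b hb (by omega)
        unfold Corner at hc
        tauto
    refine ⟨i + 1, j', hi, hj, hA, hj', hi', (key j' hj.le le_rfl).1 hj', hjn, ?_, hin, ?_⟩
    · intro t ht1 ht2 ht
      exact hjn t ht1 ht2 ((key t ht1.le ht2.le).2 ht)
    · intro t ht1 ht2
      omega
  · have hc := hW1 j le_rfl hj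
    have h2 : A i (j + 1) := by
      unfold Corner at hc
      tauto
    have hj1 : j' = j + 1 := by
      by_contra hne
      exact hjn (j + 1) (by omega) (by omega) h2
    subst hj1
    have key : ∀ a, i ≤ a → a ≤ i' → (A a j ↔ A a (j + 1)) := by
      intro a ha
      induction a, ha using Nat.le_induction with
      | base => intro _; exact ⟨fun _ => h2, fun _ => hA⟩
      | succ a ha ih =>
        intro ha'
        have ih' := ih (by omega)
        have hc := hW2 a ha (by omega)
        unfold Corner at hc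
        tauto
    refine ⟨i', j + 1, hi, hj, hA, hj', hi', (key i' hi.le le_rfl).1 hi', hjn, ?_, hin, ?_⟩
    · intro t ht1 ht2
      omega
    · intro t ht1 ht2 ht
      exact hin t ht1 ht2 ((key t ht1.le ht2.le).2 ht)

open Classical in
/-- In an `m × m` matrix, all but few ones are upper left corners of empty rectangles. -/
theorem card_ones_le (A : ℕ → ℕ → Prop) (m : ℕ) (hA : ∀ i j, A i j → i < m ∧ j < m) :
    #((range m ×ˢ range m).filter fun p => A p.1 p.2) ≤
      #((range m ×ˢ range m).filter fun p => RectStart A p.1 p.2) + m + m +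
      2 * #((range m ×ˢ range m).filter fun p => p.1 + 1 < m ∧ p.2 + 1 < m ∧ Corner A p.1 p.2) := by
  set ones := (range m ×ˢ range m).filter fun p => A p.1 p.2 with hones
  set rects := (range m ×ˢ range m).filter fun p => RectStart A p.1 p.2 with hrects
  set W := (range m ×ˢ range m).filter fun p => p.1 + 1 < m ∧ p.2 + 1 < m ∧ Corner A p.1 p.2
    with hW
  set N1 := ones.filter fun p => ∀ t, p.2 < t → ¬ A p.1 t with hN1
  set N2 := ones.filter fun p => ∀ t, p.1 < t → ¬ A t p.2 with hN2
  set N3 := ones.filter fun p => ∃ b, p.2 ≤ b ∧ (p.1, b) ∈ W ∧ ∀ t, p.2 < t → t ≤ b → ¬ A p.1 t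
    with hN3
  set N4 := ones.filter fun p => ∃ a, p.1 ≤ a ∧ (a, p.2) ∈ W ∧ ∀ t, p.1 < t → t ≤ a → ¬ A t p.2
    with hN4
  have hcover : ones ⊆ rects ∪ N1 ∪ N2 ∪ N3 ∪ N4 := by
    rintro ⟨i, j⟩ hij
    have hij' := hij
    rw [hones, mem_filter, mem_product, mem_range, mem_range] at hij'
    obtain ⟨⟨hi, hj⟩, hA0⟩ := hij'
    simp only at hi hj hA0
    simp only [mem_union]
    by_cases h1 : ∀ t, j < t → ¬ A i t
    · exact Or.inl (Or.inl (Or.inl (Or.inr (mem_filter.2 ⟨hij, h1⟩))))
    by_cases h2 : ∀ t, i < t → ¬ A t j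
    · exact Or.inl (Or.inl (Or.inr (mem_filter.2 ⟨hij, h2⟩)))
    push Not at h1 h2
    obtain ⟨j', hj1, hj2, hj3⟩ := exists_next h1
    obtain ⟨i', hi1, hi2, hi3⟩ := exists_next h2
    have hj'm : j' < m := (hA _ _ hj2).2
    have hi'm : i' < m := (hA _ _ hi2).1
    by_cases h3 : ∃ b, j ≤ b ∧ b < j' ∧ Corner A i b
    · obtain ⟨b, hb1, hb2, hb3⟩ := h3
      refine Or.inl (Or.inr (mem_filter.2 ⟨hij, b, hb1, ?_, ?_⟩))
      · rw [hW, mem_filter, mem_product, mem_range, mem_range]
        exact ⟨⟨hi, by show b < m; omega⟩, by show i + 1 < m; omega, by show b + 1 < m; omega, hb3⟩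
      · intro t ht1 ht2
        exact hj3 t ht1 (by omega)
    by_cases h4 : ∃ a, i ≤ a ∧ a < i' ∧ Corner A a j
    · obtain ⟨a, ha1, ha2, ha3⟩ := h4
      refine Or.inr (mem_filter.2 ⟨hij, a, ha1, ?_, ?_⟩)
      · rw [hW, mem_filter, mem_product, mem_range, mem_range]
        exact ⟨⟨by show a < m; omega, hj⟩, by show a + 1 < m; omega, by show j + 1 < m; omega, ha3⟩
      · intro t ht1 ht2
        exact hi3 t ht1 (by omega)
    · refine Or.inl (Or.inl (Or.inl (Or.inl (mem_filter.2 ⟨?_, ?_⟩))))
      · rw [mem_product, mem_range, mem_range]; exact ⟨hi, hj⟩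
      · push Not at h3 h4
        exact rectStart_of hA0 hj1 hj2 hj3 hi1 hi2 hi3 h3 h4
  have c1 : #N1 ≤ m := by
    calc #N1 ≤ #(range m) := by
          refine card_le_card_of_injOn Prod.fst ?_ ?_
          · intro p hp
            have := (mem_filter.1 (mem_filter.1 hp).1).1
            exact (mem_product.1 this).1
          · rintro ⟨i, j⟩ hp ⟨i', j'⟩ hq hpq
            simp only at hpq
            subst hpq
            have h1 := mem_filter.1 (mem_coe.1 hp)
            have h2 := mem_filter.1 (mem_coe.1 hq)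
            have h1' := (mem_filter.1 h1.1).2
            have h2' := (mem_filter.1 h2.1).2
            simp only at h1' h2'
            rcases lt_trichotomy j j' with h | h | h
            · exact absurd h2' (h1.2 j' h)
            · rw [h]
            · exact absurd h1' (h2.2 j h)
      _ = m := card_range m
  have c2 : #N2 ≤ m := by
    calc #N2 ≤ #(range m) := by
          refine card_le_card_of_injOn Prod.snd ?_ ?_
          · intro p hp
            have := (mem_filter.1 (mem_filter.1 hp).1).1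
            exact (mem_product.1 this).2
          · rintro ⟨i, j⟩ hp ⟨i', j'⟩ hq hpq
            simp only at hpq
            subst hpq
            have h1 := mem_filter.1 (mem_coe.1 hp)
            have h2 := mem_filter.1 (mem_coe.1 hq)
            have h1' := (mem_filter.1 h1.1).2
            have h2' := (mem_filter.1 h2.1).2
            simp only at h1' h2'
            rcases lt_trichotomy i i' with h | h | h
            · exact absurd h2' (h1.2 i' h)
            · rw [h]
            · exact absurd h1' (h2.2 i h)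
      _ = m := card_range m
  have c3 : #N3 ≤ #W := by
    have hch : ∀ p ∈ N3, ∃ b, p.2 ≤ b ∧ (p.1, b) ∈ W ∧ ∀ t, p.2 < t → t ≤ b → ¬ A p.1 t :=
      fun p hp => (mem_filter.1 hp).2
    choose! b hb1 hb2 hb3 using hch
    refine card_le_card_of_injOn (fun p => (p.1, b p)) (fun p hp => hb2 p hp) ?_
    rintro ⟨i, j⟩ hp ⟨i', j'⟩ hq hpq
    simp only [Prod.mk.injEq] at hpq
    obtain ⟨h0, h0'⟩ := hpq
    subst h0
    have hp' := mem_coe.1 hp
    have hq' := mem_coe.1 hq
    have h1 := (mem_filter.1 (mem_filter.1 hp').1).2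
    have h2 := (mem_filter.1 (mem_filter.1 hq').1).2
    have g1 := hb1 _ hp'
    have g2 := hb1 _ hq'
    have g3 := hb3 _ hp'
    have g4 := hb3 _ hq'
    simp only at h1 h2 g1 g2 g3 g4
    rcases lt_trichotomy j j' with h | h | h
    · exact absurd h2 (g3 j' h (by omega))
    · rw [h]
    · exact absurd h1 (g4 j h (by omega))
  have c4 : #N4 ≤ #W := by
    have hch : ∀ p ∈ N4, ∃ a, p.1 ≤ a ∧ (a, p.2) ∈ W ∧ ∀ t, p.1 < t → t ≤ a → ¬ A t p.2 :=
      fun p hp => (mem_filter.1 hp).2
    choose! b hb1 hb2 hb3 using hch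
    refine card_le_card_of_injOn (fun p => (b p, p.2)) (fun p hp => hb2 p hp) ?_
    rintro ⟨i, j⟩ hp ⟨i', j'⟩ hq hpq
    simp only [Prod.mk.injEq] at hpq
    obtain ⟨h0, h0'⟩ := hpq
    subst h0'
    have hp' := mem_coe.1 hp
    have hq' := mem_coe.1 hq
    have h1 := (mem_filter.1 (mem_filter.1 hp').1).2
    have h2 := (mem_filter.1 (mem_filter.1 hq').1).2
    have g1 := hb1 _ hp'
    have g2 := hb1 _ hq'
    have g3 := hb3 _ hp'
    have g4 := hb3 _ hq'
    simp only at h1 h2 g1 g2 g3 g4
    rcases lt_trichotomy i i' with h | h | h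
    · exact absurd h2 (g3 i' h (by omega))
    · rw [h]
    · exact absurd h1 (g4 i h (by omega))
  have u1 := card_le_card hcover
  have u2 := card_union_le (rects ∪ N1 ∪ N2 ∪ N3) N4
  have u3 := card_union_le (rects ∪ N1 ∪ N2) N3
  have u4 := card_union_le (rects ∪ N1) N2
  have u5 := card_union_le rects N1
  omega

end Pool.Agent.V11120.Thr
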